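import Pool.Agent.Q197.PS.J

/-! # Means over the rational primes outside a finite set, complex test functions -/

set_option autoImplicit false
set_option linter.unusedSectionVars false
set_option linter.unusedVariables false

open Finset Filter Topology Q197.PS

namespace Pool.Agent.Q181.UR

/-- real part or imaginary part -/
noncomputable def part (b : Bool) (z : ℂ) : ℝ := if b then z.re else z.im

lemma part_le (b : Bool) (z : ℂ) : |part b z| ≤ ‖z‖ := by
  unfold part
  split_ifs
  · exact Complex.abs_re_le_norm z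
  · exact Complex.abs_im_le_norm z

lemma part_sum {ι : Type*} (b : Bool) (s : Finset ι) (f : ι → ℂ) :
    part b (∑ i ∈ s, f i) = ∑ i ∈ s, part b (f i) := by
  unfold part
  split_ifs
  · exact Complex.re_sum _ _
  · exact Complex.im_sum _ _

lemma part_div (b : Bool) (z : ℂ) (n : ℕ) : part b (z / (n : ℂ)) = part b z / (n : ℝ) := by
  unfold part
  have h : z / (n : ℂ) = z / ((n : ℝ) : ℂ) := by push_cast; rfl
  rw [h]
  split_ifs
  · exact Complex.div_ofReal_re _ _
  · exact Complex.div_ofReal_im _ _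

lemma part_sub (b : Bool) (z w : ℂ) : part b (z - w) = part b z - part b w := by
  unfold part
  split_ifs
  · exact Complex.sub_re _ _
  · exact Complex.sub_im _ _

lemma part_half (b : Bool) (z : ℂ) : part b (z / 2) = part b z / 2 := by
  have := part_div b z 2
  exact_mod_cast this

lemma norm_le_parts (z : ℂ) : ‖z‖ ≤ |part true z| + |part false z| := by
  unfold part
  simpa using Complex.norm_le_abs_re_add_abs_im z

open Classical in
/-- the primes up to `N` outside `S` -/
noncomputable def pS (S : Set ℕ) (N : ℕ) : Finset ℕ := (Icc 1 N).filter (fun p => p.Prime ∧ p ∉ S)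

open Classical in
/-- the sum of the `u p` over the primes `p ≤ N` outside `S` with residue in `A`, divided by the number of
the primes `p ≤ N` outside `S` -/
noncomputable def dvq (S : Set ℕ) (u : ℕ → ℂ) (P : ℕ) (A : Finset ℕ) (N : ℕ) : ℂ :=
  (∑ p ∈ (pS S N).filter (fun p => p % P ∈ A), u p) / ((pS S N).card : ℂ)

open Classical in
/-- the real function on the primes -/
noncomputable def Fq (S : Set ℕ) (b : Bool) (u : ℕ → ℂ) (p : ℕ) : ℝ := if p ∈ S then 0 else part b (u p)

/-- the quotient of the numbers of primes -/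
noncomputable def rq (S : Set ℕ) (N : ℕ) : ℝ := (Nat.primeCounting N : ℝ) / ((pS S N).card : ℝ)

lemma Fq_le {S : Set ℕ} {u : ℕ → ℂ} (hu : ∀ p, ‖u p‖ ≤ 1) (b : Bool) (p : ℕ) : |Fq S b u p| ≤ 1 := by
  unfold Fq
  split_ifs
  · simp
  · exact (part_le b _).trans (hu p)

lemma card_primes (N : ℕ) : ((Icc 1 N).filter (fun p => p.Prime)).card = Nat.primeCounting N := by
  rw [Nat.primeCounting, Nat.primeCounting', Nat.count_eq_card_filter_range]
  congr 1
  ext p
  simp only [mem_filter, mem_Icc, mem_range]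
  constructor
  · rintro ⟨⟨_, h8⟩, h9⟩
    exact ⟨by omega, h9⟩
  · rintro ⟨h8, h9⟩
    exact ⟨⟨h9.one_lt.le, by omega⟩, h9⟩

lemma rq_tendsto {S : Set ℕ} (hS : S.Finite) : Tendsto (rq S) atTop (𝓝 1) := by
  classical
  have h0 : Tendsto (fun N : ℕ => (Nat.primeCounting N : ℝ)) atTop atTop :=
    tendsto_natCast_atTop_atTop.comp Nat.tendsto_primeCounting
  have hle : ∀ N, (pS S N).card ≤ Nat.primeCounting N := fun N => by
    rw [← card_primes]
    apply card_le_card
    intro p hp
    unfold pS at hp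
    rw [mem_filter] at hp ⊢
    exact ⟨hp.1, hp.2.1⟩
  have hge : ∀ N, Nat.primeCounting N ≤ (pS S N).card + hS.toFinset.card := by
    intro N
    rw [← card_primes]
    have h1 : (Icc 1 N).filter (fun p => p.Prime) ⊆ pS S N ∪ hS.toFinset := by
      intro p hp
      unfold pS
      rw [mem_filter] at hp
      rw [mem_union, mem_filter, Set.Finite.mem_toFinset]
      by_cases h : p ∈ S
      · exact Or.inr h
      · exact Or.inl ⟨hp.1, hp.2, h⟩
    exact (card_le_card h1).trans (card_union_le _ _)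
  have h1 : Tendsto (fun N : ℕ => ((pS S N).card : ℝ) / (Nat.primeCounting N : ℝ)) atTop (𝓝 1) := by
    have h2 : Tendsto (fun N : ℕ => 1 - (hS.toFinset.card : ℝ) / (Nat.primeCounting N : ℝ)) atTop
        (𝓝 1) := by
      have := (tendsto_const_nhds (x := (hS.toFinset.card : ℝ))).div_atTop h0
      simpa using this.const_sub 1
    refine tendsto_of_tendsto_of_tendsto_of_le_of_le' h2 tendsto_const_nhds ?_ ?_
    · filter_upwards [h0.eventually_gt_atTop 0] with N hN
      rw [le_div_iff₀ hN, sub_mul, one_mul, div_mul_cancel₀ _ hN.ne']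
      have h3 : (Nat.primeCounting N : ℝ) ≤ (pS S N).card + hS.toFinset.card := by
        exact_mod_cast hge N
      linarith
    · filter_upwards [h0.eventually_gt_atTop 0] with N hN
      rw [div_le_one hN]
      exact_mod_cast hle N
  have h2 := h1.inv₀ one_ne_zero
  rw [inv_one] at h2
  refine h2.congr fun N => ?_
  unfold rq
  rw [inv_div]

lemma part_dvq (b : Bool) (S : Set ℕ) (u : ℕ → ℂ) (P : ℕ) (A : Finset ℕ) (N : ℕ) :
    part b (dvq S u P A N) = rq S N * mI (Fq S b u) P A N := by
  classical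
  unfold dvq rq mI
  rw [part_div, part_sum]
  have h1 : ∑ p ∈ (Icc 1 N).filter (fun p => p.Prime ∧ p % P ∈ A), Fq S b u p =
      ∑ p ∈ (pS S N).filter (fun p => p % P ∈ A), part b (u p) := by
    unfold pS Fq
    rw [filter_filter, ← sum_filter_add_sum_filter_not _ (fun p => p ∈ S), filter_filter, filter_filter]
    have e1 : ∑ p ∈ (Icc 1 N).filter (fun p => (p.Prime ∧ p % P ∈ A) ∧ p ∈ S),
        (if p ∈ S then (0 : ℝ) else part b (u p)) = 0 := by
      refine sum_eq_zero fun p hp => ?_
      rw [mem_filter] at hp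
      rw [if_pos hp.2.2]
    rw [e1, zero_add]
    refine sum_congr ?_ fun p hp => ?_
    · ext p
      simp only [mem_filter]
      tauto
    · rw [mem_filter] at hp
      rw [if_neg hp.2.1.2]
  rw [h1]
  by_cases h0 : (Nat.primeCounting N : ℝ) = 0
  · have h2 : pS S N = ∅ := by
      have h3 : (pS S N).card ≤ Nat.primeCounting N := by
        rw [← card_primes]
        apply card_le_card
        intro p hp
        unfold pS at hp
        rw [mem_filter] at hp ⊢
        exact ⟨hp.1, hp.2.1⟩
      have h4 : Nat.primeCounting N = 0 := by exact_mod_cast h0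
      exact card_eq_zero.1 (by omega)
    rw [h2]
    simp
  · by_cases h2 : ((pS S N).card : ℝ) = 0
    · rw [h2]
      simp
    · field_simp

lemma dvq_tendsto {S : Set ℕ} (hS : S.Finite) {u : ℕ → ℂ} {P : ℕ} {A : Finset ℕ} :
    Tendsto (dvq S u P A) atTop (𝓝 0) ↔ ∀ b, Tendsto (mI (Fq S b u) P A) atTop (𝓝 0) := by
  have hr := rq_tendsto hS
  constructor
  · intro h b
    rw [tendsto_zero_iff_norm_tendsto_zero] at h
    have h1 : Tendsto (fun N => part b (dvq S u P A N)) atTop (𝓝 0) :=
      squeeze_zero_norm (fun x => part_le b _) h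
    have h2 := h1.div hr one_ne_zero
    rw [zero_div] at h2
    refine h2.congr' ?_
    filter_upwards [hr.eventually_ne one_ne_zero] with N hN
    simp only [Pi.div_apply]
    rw [part_dvq, mul_div_cancel_left₀ _ hN]
  · intro h
    have h1 := ((hr.mul (h true)).abs).add ((hr.mul (h false)).abs)
    simp only [mul_zero, abs_zero, add_zero] at h1
    refine squeeze_zero_norm (fun N => ?_) h1
    rw [← part_dvq, ← part_dvq]
    exact norm_le_parts _

open Classical in
/-- **Few and typical, with one constant** -/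
theorem pack : ∃ C : ℝ, 1 ≤ C ∧ ∀ S : Set ℕ, S.Finite →
    (∀ u : ℕ → ℂ, (∀ p, ‖u p‖ ≤ 1) → ∀ c : ℝ, 0 < c →
      ∀ (q : ℕ) (B : Finset ℕ), (∃ᶠ N in atTop, c ≤ ‖dvq S u q B N‖) → ∀ P : ℕ, 0 < P → q ∣ P →
      (((red P).powerset.filter (fun A => Tendsto (dvq S u P A) atTop (𝓝 0))).card : ℝ) ≤
        C * (1 + 1 / c) * 2 ^ P.totient / √P.totient) ∧
    (∀ P : ℕ, 0 < P → ∀ᶠ N : ℕ in atTop, ∀ u : ℕ → ℂ, (∀ p, ‖u p‖ ≤ 1) → ∀ t : ℝ, 0 < t →
      (((red P).powerset.filter (fun A =>
        t * C / √P.totient ≤ ‖dvq S u P A N - dvq S u 1 {0} N / 2‖)).card : ℝ) ≤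
          2 ^ P.totient / t ^ 2) := by
  obtain ⟨C, hC, h1, h2⟩ := pack_pi
  have hC0 : 0 < C := by linarith
  refine ⟨8 * C, by linarith, fun S hS => ⟨?_, ?_⟩⟩
  · intro u hu c hc q B hfr P hP hd
    have hr := rq_tendsto hS
    have hr2 := hr.eventually (Ioo_mem_nhds (show (0 : ℝ) < 1 by norm_num)
      (show (1 : ℝ) < 2 by norm_num))
    have h3 : ∃ b : Bool, ∃ᶠ N in atTop, c / 4 ≤ |mI (Fq S b u) q B N| := by
      by_contra hcon
      push Not at hcon
      have h4 := hcon true
      have h5 := hcon false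
      obtain ⟨y, hy1, hy2, hy3⟩ := (hfr.and_eventually ((h4.and h5).and hr2)).exists
      have h6 := norm_le_parts (dvq S u q B y)
      rw [part_dvq, part_dvq, abs_mul, abs_mul, abs_of_pos hy3.1] at h6
      have h7 := hy2.1
      have h8 := hy2.2
      have h9 := hy3.1
      have h10 := hy3.2
      have h11 := abs_nonneg (mI (Fq S true u) q B y)
      have h12 := abs_nonneg (mI (Fq S false u) q B y)
      nlinarith
    obtain ⟨b, hb⟩ := h3
    have h5 := h1 (Fq S b u) (Fq_le hu b) _ (by positivity) q B hb P hP hd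
    have h6 : (((red P).powerset.filter (fun A => Tendsto (dvq S u P A) atTop (𝓝 0))).card : ℝ) ≤
        (((red P).powerset.filter (fun A => Tendsto (mI (Fq S b u) P A) atTop (𝓝 0))).card : ℝ) := by
      have : (red P).powerset.filter (fun A => Tendsto (dvq S u P A) atTop (𝓝 0)) ⊆
          (red P).powerset.filter (fun A => Tendsto (mI (Fq S b u) P A) atTop (𝓝 0)) := by
        intro A hA
        rw [mem_filter] at hA ⊢
        exact ⟨hA.1, (dvq_tendsto hS).1 hA.2 b⟩
      exact_mod_cast card_le_card this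
    refine h6.trans (h5.trans ?_)
    have h7 : C * (1 + 1 / (c / 4)) ≤ 8 * C * (1 + 1 / c) := by
      have e1 : 1 / (c / 4) = 4 * (1 / c) := by
        field_simp
      rw [e1]
      have e2 : 0 < 1 / c := by positivity
      nlinarith [mul_pos hC0 e2]
    gcongr
  · intro P hP
    have hpos : (0 : ℝ) < P.totient := by exact_mod_cast Nat.totient_pos.2 hP
    have hsq : 0 < √(P.totient : ℝ) := Real.sqrt_pos.2 hpos
    have h4 := (rq_tendsto hS).eventually (Ioo_mem_nhds (show (0 : ℝ) < 1 by norm_num)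
      (show (1 : ℝ) < 2 by norm_num))
    filter_upwards [h2 P hP, h4] with N hN hN4 u hu t ht
    have h5 : (red P).powerset.filter (fun A =>
        t * (8 * C) / √P.totient ≤ ‖dvq S u P A N - dvq S u 1 {0} N / 2‖) ⊆
        (red P).powerset.filter (fun A => (2 * t) * C / √P.totient ≤
          |mI (Fq S true u) P A N - mI (Fq S true u) 1 {0} N / 2|) ∪
        (red P).powerset.filter (fun A => (2 * t) * C / √P.totient ≤
          |mI (Fq S false u) P A N - mI (Fq S false u) 1 {0} N / 2|) := by
      intro A hA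
      rw [mem_filter] at hA
      rw [mem_union, mem_filter, mem_filter]
      obtain ⟨hA1, hA2⟩ := hA
      by_contra hcon
      rw [not_or] at hcon
      have hcon1 := not_le.1 (fun h => hcon.1 ⟨hA1, h⟩)
      have hcon2 := not_le.1 (fun h => hcon.2 ⟨hA1, h⟩)
      have key : ∀ b : Bool, |part b (dvq S u P A N - dvq S u 1 {0} N / 2)| =
          rq S N * |mI (Fq S b u) P A N - mI (Fq S b u) 1 {0} N / 2| := by
        intro b
        rw [part_sub, part_half, part_dvq, part_dvq]
        have e3 : rq S N * mI (Fq S b u) P A N - rq S N * mI (Fq S b u) 1 {0} N / 2 =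
            rq S N * (mI (Fq S b u) P A N - mI (Fq S b u) 1 {0} N / 2) := by ring
        rw [e3, abs_mul, abs_of_pos hN4.1]
      have k1 := key true
      have k2 := key false
      have k3 := norm_le_parts (dvq S u P A N - dvq S u 1 {0} N / 2)
      rw [k1, k2] at k3
      have k5 : t * (8 * C) / √P.totient = 8 * (t * C / √P.totient) := by ring
      have k6 : 2 * t * C / √P.totient = 2 * (t * C / √P.totient) := by ring
      rw [k6] at hcon1 hcon2
      rw [k5] at hA2
      have k9 : 0 < t * C / √P.totient := by positivity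
      have h9 := hN4.1
      have h10 := hN4.2
      have h11 := abs_nonneg (mI (Fq S true u) P A N - mI (Fq S true u) 1 {0} N / 2)
      have h12 := abs_nonneg (mI (Fq S false u) P A N - mI (Fq S false u) 1 {0} N / 2)
      nlinarith
    have h6 := card_le_card h5
    have h7 := h6.trans (card_union_le _ _)
    have e1 := hN (Fq S true u) (Fq_le hu true) (2 * t) (by linarith)
    have e2 := hN (Fq S false u) (Fq_le hu false) (2 * t) (by linarith)
    have h8 : (((red P).powerset.filter (fun A =>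
        t * (8 * C) / √P.totient ≤ ‖dvq S u P A N - dvq S u 1 {0} N / 2‖)).card : ℝ) ≤
        2 ^ P.totient / (2 * t) ^ 2 + 2 ^ P.totient / (2 * t) ^ 2 := by
      refine (Nat.cast_le.2 h7).trans ?_
      rw [Nat.cast_add]
      exact add_le_add e1 e2
    refine h8.trans ?_
    have h9 : (0 : ℝ) < 2 ^ P.totient / t ^ 2 := by positivity
    have e3 : (2 : ℝ) ^ P.totient / (2 * t) ^ 2 = (2 ^ P.totient / t ^ 2) / 4 := by
      field_simp
      norm_num
    rw [e3]
    linarith

/-! ### Families -/

section Fam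
variable {κ : Type*} (S : Set ℕ) (u : κ → ℕ → ℂ)

/-- the family of real functions -/
noncomputable def fam (i : κ × Bool) : ℕ → ℝ := Fq S i.2 (u i.1)

variable {S u}

lemma good_fam (hS : S.Finite) (P : ℕ) (A : Finset ℕ) :
    GoodF (fam S u) P A ↔ ∀ i, Tendsto (dvq S (u i) P A) atTop (𝓝 0) := by
  unfold GoodF fam
  constructor
  · intro h i
    rw [dvq_tendsto hS]
    intro b
    exact h (i, b)
  · intro h i
    exact (dvq_tendsto hS).1 (h i.1) i.2

lemma fam_le (hu : ∀ i p, ‖u i p‖ ≤ 1) (i : κ × Bool) (n : ℕ) : |fam S u i n| ≤ 1 :=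
  Fq_le (hu i.1) i.2 n

end Fam

/-! ### One bounded function -/

section One
variable {S : Set ℕ} {u : ℕ → ℂ}

open Classical in
/-- the number of the sets of reduced residues along which the means tend to zero -/
noncomputable def cnt (S : Set ℕ) (u : ℕ → ℂ) (P : ℕ) : ℕ :=
    ((red P).powerset.filter (fun A => Tendsto (dvq S u P A) atTop (𝓝 0))).card

lemma dvq_smul (k : ℂ) (P : ℕ) (A : Finset ℕ) (x : ℕ) :
    dvq S (fun v => k * u v) P A x = k * dvq S u P A x := by
  unfold dvq
  rw [← mul_sum, mul_div_assoc]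

lemma tendsto_smul {k : ℂ} (hk : k ≠ 0) (P : ℕ) (A : Finset ℕ) :
    Tendsto (dvq S (fun v => k * u v) P A) atTop (𝓝 0) ↔ Tendsto (dvq S u P A) atTop (𝓝 0) := by
  constructor
  · intro h
    have h1 := h.const_mul k⁻¹
    rw [mul_zero] at h1
    refine h1.congr fun x => ?_
    rw [dvq_smul, inv_mul_cancel_left₀ hk]
  · intro h
    have h1 := h.const_mul k
    rw [mul_zero] at h1
    refine h1.congr fun x => ?_
    rw [dvq_smul]

lemma cnt_eq_nF (hS : S.Finite) (P : ℕ) :
    nF (fam S fun _ : Unit => u) P = cnt S u P := by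
  classical
  unfold nF cnt
  congr 1
  ext A
  rw [mem_filter, mem_filter, good_fam hS]
  exact and_congr Iff.rfl ⟨fun h => h (), fun h _ => h⟩

lemma scale {M : ℝ} (hu : ∀ v, ‖u v‖ ≤ M) : ∃ k : ℂ, k ≠ 0 ∧ ∀ v, ‖k * u v‖ ≤ 1 := by
  have hK : 0 < |M| + 1 := by positivity
  refine ⟨(((|M| + 1)⁻¹ : ℝ) : ℂ), by exact_mod_cast (inv_pos.2 hK).ne', fun v => ?_⟩
  rw [norm_mul, Complex.norm_real, Real.norm_of_nonneg (inv_pos.2 hK).le, inv_mul_le_one₀ hK]
  have := hu v
  have := le_abs_self M
  linarith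

theorem one_all (hS : S.Finite) {M : ℝ} (hu : ∀ v, ‖u v‖ ≤ M)
    (h : ∀ K : ℝ, ∃ P : ℕ, 0 < P ∧ K * 2 ^ P.totient / √P.totient ≤ cnt S u P) :
    Tendsto (dvq S u 1 {0}) atTop (𝓝 0) := by
  obtain ⟨k, hk, hku⟩ := scale hu
  rw [← tendsto_smul hk]
  have hcnt : ∀ P, cnt S (fun v => k * u v) P = cnt S u P := fun P => by
    classical
    unfold cnt
    congr 1
    ext A
    simp only [mem_filter, tendsto_smul hk]
  have h1 := fam_all (F := fam S fun _ : Unit => fun v => k * u v) (fam_le fun _ => hku)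
    (fun K => by
      obtain ⟨P, hP, h2⟩ := h K
      refine ⟨P, hP, ?_⟩
      rw [cnt_eq_nF hS, hcnt]
      exact h2)
  exact (good_fam (u := fun _ : Unit => fun v => k * u v) hS 1 {0}).1 h1 ()

theorem one_iff (hS : S.Finite) {M : ℝ} (hu : ∀ v, ‖u v‖ ≤ M) :
    (∀ q : ℕ, 0 < q → ∀ a ∈ red q, Tendsto (dvq S u q {a}) atTop (𝓝 0)) ↔
      ∀ q : ℕ, 0 < q → ∀ K : ℝ, ∃ P : ℕ, 0 < P ∧ q ∣ P ∧
        K * 2 ^ P.totient / √P.totient ≤ cnt S u P := by
  obtain ⟨k, hk, hku⟩ := scale hu
  have hcnt : ∀ P, cnt S (fun v => k * u v) P = cnt S u P := fun P => by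
    classical
    unfold cnt
    congr 1
    ext A
    simp only [mem_filter, tendsto_smul hk]
  have h1 := fam_iff (F := fam S fun _ : Unit => fun v => k * u v) (fam_le fun _ => hku)
  simp only [cnt_eq_nF hS, hcnt,
    good_fam (u := fun _ : Unit => fun v => k * u v) hS, tendsto_smul hk] at h1
  rw [← h1]
  exact ⟨fun h q hq a ha _ => h q hq a ha, fun h q hq a ha => h q hq a ha ()⟩

end One

end Pool.Agent.Q181.UR
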