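import Pool.Agent.Q255.SG.CG

/-! # Characters suffice -/

set_option autoImplicit false
set_option linter.unusedSectionVars false

open MeasureTheory Filter Topology Pool.Agent.Q255.SG.CG

namespace Pool.Agent.Q181.UC

variable {G : Type} [Group G] [TopologicalSpace G] [IsTopologicalGroup G] [CompactSpace G] [T2Space G]
  [MeasurableSpace G] [BorelSpace G] (μ : Measure G) [IsProbabilityMeasure μ]
  [μ.IsMulLeftInvariant]

include μ in
/-- Convergence to zero on characters and on class functions. -/
theorem weyl0 (D : ℕ → (G → ℂ) → ℂ)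
    (hadd : ∀ n f g, Continuous f → Continuous g → D n (f + g) = D n f + D n g)
    (hsmul : ∀ n (c : ℂ) f, Continuous f → D n (c • f) = c * D n f)
    (hb : ∀ n f (B : ℝ), 0 ≤ B → Continuous f → (∀ x, ‖f x‖ ≤ B) → ‖D n f‖ ≤ 2 * B)
    (h : ∀ f, Ct f → Tendsto (fun n => D n f) atTop (𝓝 0)) {f : G → ℂ}
    (hf : Continuous f) (hcl : ∀ x g, f (g⁻¹ * x * g) = f x) :
    Tendsto (fun n => D n f) atTop (𝓝 0) := by
  have hCt : ∀ f : G → ℂ, Ct f → Continuous f := by
    rintro f ⟨n, ρ, hρ, hfρ⟩
    have : f = fun g => (ρ g : Matrix (Fin n) (Fin n) ℂ).trace := funext hfρ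
    rw [this]
    exact (continuous_subtype_val.comp hρ).matrix_trace
  have hspan : ∀ f ∈ CS G, Continuous f ∧ Tendsto (fun n => D n f) atTop (𝓝 0) := by
    intro f hf
    induction hf using Submodule.span_induction with
    | mem f hf => exact ⟨hCt f hf, h f hf⟩
    | zero =>
      refine ⟨continuous_const, ?_⟩
      have h0 : ∀ n, D n 0 = 0 := by
        intro n
        have := hsmul n 0 0 continuous_const
        rwa [zero_smul, zero_mul] at this
      simp only [h0]
      simp
    | add f g _ _ hf hg =>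
      refine ⟨hf.1.add hg.1, ?_⟩
      have := hf.2.add hg.2
      rw [add_zero] at this
      refine this.congr fun n => ?_
      exact (hadd n f g hf.1 hg.1).symm
    | smul c f _ hf =>
      refine ⟨hf.1.const_smul c, ?_⟩
      have := hf.2.const_mul c
      rw [mul_zero] at this
      refine this.congr fun n => ?_
      exact (hsmul n c f hf.1).symm
  rw [Metric.tendsto_nhds]
  intro ε hε
  obtain ⟨k, hk, hkc, hd⟩ := class_dense μ hf hcl (show 0 < ε / 4 by linarith)
  have h1 := (Metric.tendsto_nhds.1 (hspan k hk).2) (ε / 4) (by linarith)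
  filter_upwards [h1] with n hn
  rw [dist_eq_norm, sub_zero] at hn ⊢
  have e1 : D n f - D n k = D n (f - k) := by
    rw [sub_eq_add_neg, sub_eq_add_neg, show -k = (-1 : ℂ) • k by simp,
      hadd n f _ hf (hkc.const_smul _), hsmul n _ k hkc]
    ring
  have e2 : ‖D n f - D n k‖ ≤ ε / 2 := by
    rw [e1]
    have := hb n (f - k) (ε / 4) (by linarith) (hf.sub hkc) hd
    linarith
  calc ‖D n f‖ = ‖(D n f - D n k) + D n k‖ := by rw [sub_add_cancel]
    _ ≤ ‖D n f - D n k‖ + ‖D n k‖ := norm_add_le _ _
    _ < ε := by linarith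

end Pool.Agent.Q181.UC
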